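import Mathlib

set_option autoImplicit false

/-!
# A special monoid with context-free word problem and infinitely generated group of units

Letters `o i`, `m i`, `k i` for `i : Bool`; `tok i n = o i (m i)^n k i`; the relations are
`tok i n * tok (!i) n = 1` for all `i`, `n`.  Here: leftmost reduction of words.
-/

namespace Pool.Agent.K7.H93.CFU

/-- the six letters -/
inductive A : Type
  | o (i : Bool)
  | m (i : Bool)
  | k (i : Bool)
  deriving DecidableEq, Fintype

open A

/-- `o i (m i)^n` -/
def om (i : Bool) (n : ℕ) : List A := o i :: List.replicate n (m i)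

/-- `o i (m i)^n k i` -/
def tok (i : Bool) (n : ℕ) : List A := o i :: (List.replicate n (m i) ++ [k i])

theorem tok_eq (i : Bool) (n : ℕ) : tok i n = om i n ++ [k i] := rfl

theorem om_succ (i : Bool) (n : ℕ) : om i (n + 1) = om i n ++ [m i] := by
  simp [om, List.replicate_succ']

theorem om_zero (i : Bool) : om i 0 = [o i] := rfl

/-- cancelling `om` on the right -/
theorem om_cancel {i j : Bool} {n l : ℕ} {p q : List A} (h : p ++ om i n = q ++ om j l) :
    p = q ∧ i = j ∧ n = l := by
  induction n generalizing l with
  | zero =>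
    cases l with
    | zero =>
      rw [om_zero, om_zero] at h
      have h1 := List.append_inj' h rfl
      simp only [List.cons.injEq, o.injEq, and_true] at h1
      exact ⟨h1.1, h1.2, rfl⟩
    | succ l =>
      rw [om_zero, om_succ, ← List.append_assoc] at h
      have h1 := List.append_inj' h rfl
      simp at h1
  | succ n ih =>
    cases l with
    | zero =>
      rw [om_zero, om_succ, ← List.append_assoc] at h
      have h1 := List.append_inj' h rfl
      simp at h1
    | succ l =>
      rw [om_succ, om_succ, ← List.append_assoc, ← List.append_assoc] at h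
      have h1 := List.append_inj' h rfl
      obtain ⟨h2, h3, h4⟩ := ih h1.1
      exact ⟨h2, h3, by omega⟩

/-- cancelling `tok` on the right -/
theorem tok_cancel {i j : Bool} {n l : ℕ} {p q : List A} (h : p ++ tok i n = q ++ tok j l) :
    p = q ∧ i = j ∧ n = l := by
  rw [tok_eq, tok_eq, ← List.append_assoc, ← List.append_assoc] at h
  exact om_cancel (List.append_inj' h rfl).1

/-- a word without a factor `tok i n ++ tok (!i) n` -/
def Irr (w : List A) : Prop := ∀ (p q : List A) (i : Bool) (n : ℕ),
  w ≠ p ++ (tok i n ++ (tok (!i) n ++ q))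

theorem Irr_nil : Irr [] := by
  intro p q i n h
  simp [tok] at h

theorem Irr.left {u v : List A} (h : Irr (u ++ v)) : Irr u := by
  intro p q i n hu
  apply h p (q ++ v) i n
  rw [hu]
  simp

theorem Irr.right {u v : List A} (h : Irr (u ++ v)) : Irr v := by
  intro p q i n hv
  apply h (u ++ p) q i n
  rw [hv]
  simp

theorem Irr.tail {x : A} {v : List A} (h : Irr (x :: v)) : Irr v :=
  Irr.right (u := [x]) h

/-- the letter `k i` cancels on `w` and leaves `p` -/
def Pops (w : List A) (i : Bool) (p : List A) : Prop := ∃ n, w = p ++ (tok (!i) n ++ om i n)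

theorem Pops.unique {w p q : List A} {i : Bool} (h : Pops w i p) (h' : Pops w i q) : p = q := by
  obtain ⟨n, rfl⟩ := h
  obtain ⟨l, h⟩ := h'
  rw [← List.append_assoc, ← List.append_assoc] at h
  obtain ⟨h1, -, h2⟩ := om_cancel h
  exact (tok_cancel h1).1

open Classical in
/-- reading one letter -/
noncomputable def step (w : List A) : A → List A
  | k i => if h : ∃ p, Pops w i p then h.choose else w ++ [k i]
  | x => w ++ [x]

theorem step_o (w : List A) (i : Bool) : step w (o i) = w ++ [o i] := rfl

theorem step_m (w : List A) (i : Bool) : step w (m i) = w ++ [m i] := rfl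

theorem step_pop {w p : List A} {i : Bool} (h : Pops w i p) : step w (k i) = p := by
  have h' : ∃ p, Pops w i p := ⟨p, h⟩
  simp only [step, dif_pos h']
  exact h'.choose_spec.unique h

theorem step_push {w : List A} {i : Bool} (h : ¬ ∃ p, Pops w i p) :
    step w (k i) = w ++ [k i] := by
  simp only [step, dif_neg h]

/-- either a letter is pushed or it is a `k i` and pops -/
theorem step_cases (w : List A) (x : A) :
    (step w x = w ++ [x] ∧ ∀ i, x = k i → ¬ ∃ p, Pops w i p) ∨
      ∃ i p, x = k i ∧ Pops w i p ∧ step w x = p := by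
  rcases x with i | i | i
  · left
    exact ⟨step_o w i, by simp⟩
  · left
    exact ⟨step_m w i, by simp⟩
  · by_cases h : ∃ p, Pops w i p
    · right
      obtain ⟨p, h⟩ := h
      exact ⟨i, p, rfl, h, step_pop h⟩
    · left
      refine ⟨step_push h, ?_⟩
      intro j hj
      cases hj
      exact h

theorem Irr_step {w : List A} (h : Irr w) (x : A) : Irr (step w x) := by
  rcases step_cases w x with ⟨h1, h2⟩ | ⟨i, p, -, ⟨n, rfl⟩, h3⟩
  · rw [h1]
    intro p q i n h3
    rcases List.eq_nil_or_concat q with rfl | ⟨q, y, rfl⟩
    · rw [List.append_nil, tok_eq (!i), ← List.append_assoc, ← List.append_assoc] at h3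
      have h4 := List.append_inj' h3 rfl
      obtain ⟨h4, h5⟩ := h4
      simp only [List.cons.injEq, and_true] at h5
      apply h2 _ h5
      refine ⟨p, n, ?_⟩
      rw [Bool.not_not, h4]
      simp
    · have h4 : w ++ [x] = (p ++ (tok i n ++ (tok (!i) n ++ q))) ++ [y] := by
        rw [h3]; simp
      exact h p q i n (List.append_inj' h4 rfl).1
  · rw [h3]
    exact h.left

/-- reading a word -/
noncomputable def run (w y : List A) : List A := y.foldl step w

@[simp] theorem run_nil (w : List A) : run w [] = w := rfl

@[simp] theorem run_cons (w : List A) (x : A) (y : List A) :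
    run w (x :: y) = run (step w x) y := rfl

@[simp] theorem run_append (w y z : List A) : run w (y ++ z) = run (run w y) z := by
  simp [run]

theorem Irr_run {w : List A} (h : Irr w) (y : List A) : Irr (run w y) := by
  induction y generalizing w with
  | nil => exact h
  | cons x y ih => exact ih (Irr_step h x)

theorem run_om (w : List A) (i : Bool) (n : ℕ) : run w (om i n) = w ++ om i n := by
  induction n with
  | zero => simp [om_zero, step_o]
  | succ n ih =>
    rw [om_succ, run_append, ih]
    simp [step_m]

/-- reading a token -/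
theorem run_tok (w : List A) (i : Bool) (n : ℕ) :
    (∃ p, w = p ++ tok (!i) n ∧ run w (tok i n) = p) ∨
      ((¬ ∃ p, w = p ++ tok (!i) n) ∧ run w (tok i n) = w ++ tok i n) := by
  rw [tok_eq i, run_append, run_om]
  simp only [run_cons, run_nil]
  rcases step_cases (w ++ om i n) (k i) with ⟨h1, h2⟩ | ⟨j, p, h1, h2, h3⟩
  · right
    rw [h1]
    refine ⟨?_, by simp⟩
    rintro ⟨p, rfl⟩
    exact h2 i rfl ⟨p, n, by simp⟩
  · left
    cases h1
    obtain ⟨l, h2⟩ := h2
    rw [← List.append_assoc] at h2
    obtain ⟨h4, -, h5⟩ := om_cancel h2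
    subst h5
    exact ⟨p, h4, h3⟩

/-- the relations hold on irreducible words -/
theorem run_rel {w : List A} (hw : Irr w) (i : Bool) (n : ℕ) :
    run w (tok i n ++ tok (!i) n) = w := by
  rw [run_append]
  rcases run_tok w i n with ⟨p, rfl, h2⟩ | ⟨h1, h2⟩
  · rw [h2]
    rcases run_tok p (!i) n with ⟨q, rfl, h3⟩ | ⟨h3, h4⟩
    · exfalso
      rw [Bool.not_not] at hw
      exact hw q [] i n (by simp)
    · exact h4
  · rw [h2]
    rcases run_tok (w ++ tok i n) (!i) n with ⟨q, h3, h4⟩ | ⟨h3, h4⟩
    · rw [h4]
      rw [Bool.not_not] at h3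
      exact (tok_cancel h3).1.symm
    · exfalso
      exact h3 ⟨w, by rw [Bool.not_not]⟩

/-- normal form -/
noncomputable def nf (w : List A) : List A := run [] w

theorem Irr_nf (w : List A) : Irr (nf w) := Irr_run Irr_nil w

/-- running the normal form is the same as running the word -/
theorem run_nf {s : List A} (hs : Irr s) (w : List A) : run s (nf w) = run s w := by
  induction w using List.reverseRecOn with
  | nil => rfl
  | append_singleton w x ih =>
    have h1 : nf (w ++ [x]) = step (nf w) x := by simp [nf]
    rw [h1, run_append]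
    simp only [run_cons, run_nil]
    rcases step_cases (nf w) x with ⟨h2, -⟩ | ⟨i, p, rfl, ⟨n, h3⟩, h4⟩
    · rw [h2, run_append, ih]
      simp
    · rw [h4, ← ih, h3]
      have h5 : step (run s (p ++ (tok (!i) n ++ om i n))) (k i) =
          run (run s p) (tok (!i) n ++ tok i n) := by
        rw [tok_eq i]
        simp only [run_append, run_cons, run_nil]
      rw [h5]
      have h6 := run_rel (Irr_run hs p) (!i) n
      rw [Bool.not_not] at h6
      exact h6.symm

theorem nf_of_Irr {w : List A} (h : Irr w) : nf w = w := by
  induction w using List.reverseRecOn with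
  | nil => rfl
  | append_singleton w x ih =>
    have h1 : nf (w ++ [x]) = step (nf w) x := by simp [nf]
    rw [h1, ih h.left]
    rcases step_cases w x with ⟨h2, -⟩ | ⟨i, p, rfl, ⟨n, h3⟩, h4⟩
    · exact h2
    · exfalso
      apply h p [] (!i) n
      rw [h3, Bool.not_not, tok_eq i]
      simp

/-- the congruence -/
def C : Con (FreeMonoid A) where
  r u v := ∀ s, Irr s → run s u.toList = run s v.toList
  iseqv := ⟨fun _ _ _ => rfl, fun h s hs => (h s hs).symm, fun h h' s hs => (h s hs).trans (h' s hs)⟩
  mul' := by
    intro w x y z h h' s hs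
    rw [FreeMonoid.toList_mul, FreeMonoid.toList_mul, run_append, run_append, h s hs]
    exact h' _ (Irr_run hs _)

/-- the monoid -/
abbrev M : Type := C.Quotient

/-- the element represented by a word -/
def pr (w : List A) : M := ((FreeMonoid.ofList w : FreeMonoid A) : C.Quotient)

theorem pr_eq_iff_run {u v : List A} : pr u = pr v ↔ ∀ s, Irr s → run s u = run s v := by
  rw [pr, pr, Con.eq]
  rfl

theorem pr_eq_iff {u v : List A} : pr u = pr v ↔ nf u = nf v := by
  rw [pr_eq_iff_run]
  constructor
  · intro h
    exact h [] Irr_nil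
  · intro h s hs
    rw [← run_nf hs u, ← run_nf hs v, h]

@[simp] theorem pr_nil : pr [] = 1 := rfl

@[simp] theorem pr_append (u v : List A) : pr (u ++ v) = pr u * pr v := rfl

theorem pr_surjective (x : M) : ∃ w, pr w = x := by
  obtain ⟨w, rfl⟩ := Con.mk'_surjective x
  exact ⟨w.toList, rfl⟩

theorem pr_nf (w : List A) : pr (nf w) = pr w := by
  rw [pr_eq_iff, nf_of_Irr (Irr_nf w)]

theorem pr_prod (w : List A) : (w.map (fun x => pr [x])).prod = pr w := by
  induction w with
  | nil => rfl
  | cons x w ih =>
    rw [List.map_cons, List.prod_cons, ih]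
    exact (pr_append [x] w).symm

theorem pr_rel (i : Bool) (n : ℕ) : pr (tok i n) * pr (tok (!i) n) = 1 := by
  rw [← pr_append, ← pr_nil, pr_eq_iff_run]
  intro s hs
  exact run_rel hs i n

end Pool.Agent.K7.H93.CFU
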