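import Mathlib

set_option autoImplicit false

/-!
# Generalities on context-free grammars (languages of the nonterminals)
-/

namespace Pool.Agent.K7.H93.CFU

section general

variable {T N : Type}

/-- meaning of a sentential form, given languages for the nonterminals -/
def Sem (L : N → Language T) (α : List (Symbol T N)) : Language T :=
  (α.map (fun s => match s with
    | .terminal t => ({[t]} : Language T)
    | .nonterminal A => L A)).prod

theorem Sem_nil (L : N → Language T) : Sem L [] = 1 := rfl

theorem Sem_append (L : N → Language T) (α β : List (Symbol T N)) :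
    Sem L (α ++ β) = Sem L α * Sem L β := by simp [Sem]

theorem Sem_single (L : N → Language T) (A : N) : Sem L [.nonterminal A] = L A := by simp [Sem]

theorem mem_Sem_cons_terminal (L : N → Language T) (t : T) (α : List (Symbol T N)) (w : List T) :
    w ∈ Sem L (.terminal t :: α) ↔ ∃ u ∈ Sem L α, w = t :: u := by
  change w ∈ ({[t]} : Language T) * Sem L α ↔ _
  rw [Language.mem_mul]
  constructor
  · rintro ⟨a, ha, b, hb, rfl⟩
    have : a = [t] := ha
    subst this
    exact ⟨b, hb, rfl⟩
  · rintro ⟨u, hu, rfl⟩
    exact ⟨[t], rfl, u, hu, rfl⟩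

theorem mem_Sem_cons_nonterminal (L : N → Language T) (A : N) (α : List (Symbol T N))
    (w : List T) :
    w ∈ Sem L (.nonterminal A :: α) ↔ ∃ v ∈ L A, ∃ u ∈ Sem L α, w = v ++ u := by
  change w ∈ L A * Sem L α ↔ _
  rw [Language.mem_mul]
  constructor
  · rintro ⟨a, ha, b, hb, rfl⟩
    exact ⟨a, ha, b, hb, rfl⟩
  · rintro ⟨a, ha, b, hb, rfl⟩
    exact ⟨a, ha, b, hb, rfl⟩

theorem mem_Sem_nil (L : N → Language T) (w : List T) : w ∈ Sem L [] ↔ w = [] := by
  rw [Sem_nil, Language.mem_one]

theorem mem_Sem_self (L : N → Language T) (w : List T) : w ∈ Sem L (w.map .terminal) := by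
  induction w with
  | nil => rw [List.map_nil, mem_Sem_nil]
  | cons t w ih =>
    rw [List.map_cons, mem_Sem_cons_terminal]
    exact ⟨w, ih, rfl⟩

end general

section cfg

variable {T N : Type} (A0 : N) (R : Finset (ContextFreeRule T N))

/-- the grammar with given nonterminals, initial nonterminal and rules -/
abbrev mk : ContextFreeGrammar T := ⟨N, A0, R⟩

/-- derivations -/
def Der (u v : List (Symbol T N)) : Prop := (mk A0 R).Derives u v

theorem Sem_step (L : N → Language T) (p q α : List (Symbol T N)) (A : N)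
    (h : ∀ w, w ∈ Sem L α → w ∈ L A) (w : List T) (hw : w ∈ Sem L (p ++ α ++ q)) :
    w ∈ Sem L (p ++ [.nonterminal A] ++ q) := by
  rw [Sem_append, Sem_append, Language.mem_mul] at hw ⊢
  obtain ⟨a, ha, b, hb, rfl⟩ := hw
  rw [Language.mem_mul] at ha
  obtain ⟨c, hc, d, hd, rfl⟩ := ha
  refine ⟨c ++ d, ?_, b, hb, rfl⟩
  rw [Language.mem_mul]
  refine ⟨c, hc, d, ?_, rfl⟩
  rw [Sem_single]
  exact h d hd

theorem Sem_le (L : N → Language T)
    (h : ∀ r ∈ R, ∀ w, w ∈ Sem L r.output → w ∈ L r.input) {u v : List (Symbol T N)}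
    (hd : Der A0 R u v) : ∀ w, w ∈ Sem L v → w ∈ Sem L u := by
  unfold Der at hd
  induction hd with
  | refl => exact fun w hw => hw
  | tail _ hp ih =>
    intro w hw
    apply ih
    obtain ⟨r, hr, hrw⟩ := hp
    obtain ⟨p, q, rfl, rfl⟩ := hrw.exists_parts
    exact Sem_step L p q r.output r.input (h r hr) w hw

theorem mem_of_generates (L : N → Language T)
    (h : ∀ r ∈ R, ∀ w, w ∈ Sem L r.output → w ∈ L r.input) {w : List T}
    (hw : w ∈ (mk A0 R).language) : w ∈ L A0 := by
  have h1 := Sem_le A0 R L h (u := [.nonterminal A0]) (v := w.map .terminal) hw w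
    (mem_Sem_self L w)
  rw [Sem_single] at h1
  exact h1

/-- the words derivable from a nonterminal -/
def Lg (A : N) : Language T := {w | Der A0 R [.nonterminal A] (w.map .terminal)}

theorem Der_left {u v : List (Symbol T N)} (h : Der A0 R u v) (p : List (Symbol T N)) :
    Der A0 R (p ++ u) (p ++ v) := ContextFreeGrammar.Derives.append_left (g := mk A0 R) h p

theorem Der_right {u v : List (Symbol T N)} (h : Der A0 R u v) (p : List (Symbol T N)) :
    Der A0 R (u ++ p) (v ++ p) := ContextFreeGrammar.Derives.append_right (g := mk A0 R) h p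

theorem Der_trans {u v w : List (Symbol T N)} (h : Der A0 R u v) (h' : Der A0 R v w) :
    Der A0 R u w := ContextFreeGrammar.Derives.trans (g := mk A0 R) h h'

theorem derives_of_mem {α : List (Symbol T N)} {w : List T} (h : w ∈ Sem (Lg A0 R) α) :
    Der A0 R α (w.map .terminal) := by
  induction α generalizing w with
  | nil =>
    rw [mem_Sem_nil] at h
    subst h
    exact Relation.ReflTransGen.refl
  | cons s α ih =>
    rcases s with t | A
    · rw [mem_Sem_cons_terminal] at h
      obtain ⟨u, hu, rfl⟩ := h
      have := Der_left A0 R (ih hu) [.terminal t]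
      simpa using this
    · rw [mem_Sem_cons_nonterminal] at h
      obtain ⟨v, hv, u, hu, rfl⟩ := h
      have h1 := Der_left A0 R (ih hu) [.nonterminal A]
      have h2 : Der A0 R ([.nonterminal A] ++ u.map .terminal)
          (v.map .terminal ++ u.map .terminal) := Der_right A0 R hv _
      rw [List.map_append]
      exact Der_trans A0 R h1 h2

theorem mem_Lg {r : ContextFreeRule T N} (hr : r ∈ R) {w : List T}
    (h : w ∈ Sem (Lg A0 R) r.output) : w ∈ Lg A0 R r.input := by
  have h1 : (mk A0 R).Produces [.nonterminal r.input] r.output :=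
    ⟨r, hr, ContextFreeRule.Rewrites.input_output⟩
  exact h1.trans_derives (derives_of_mem A0 R h)

end cfg

end Pool.Agent.K7.H93.CFU
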