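import Mathlib
import Pool.Agent.K7.H93.CFU.Base
import Pool.Agent.K7.H93.CFU.Gram

set_option autoImplicit false

/-!
# The word problem of the monoid `M` is context-free
-/

namespace Pool.Agent.K7.H93.CFU

open A

/-- the language `u # v^rev` with `u = v` in the monoid -/
def WPl : Language (Option A) :=
  {w | ∃ u v : List A, pr u = pr v ∧ w = u.map some ++ [none] ++ v.reverse.map some}

/-- nonterminals -/
inductive NT : Type
  | S
  | D
  | P (i : Bool)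
  | D'
  | P' (i : Bool)
  deriving DecidableEq

/-- the middle part of a relator -/
def mid (i : Bool) (n : ℕ) : List A :=
  List.replicate n (m i) ++ (k i :: o (!i) :: List.replicate n (m (!i)))

/-- terminal symbol -/
abbrev t (x : A) : Symbol (Option A) NT := .terminal (some x)

/-- nonterminal symbol -/
abbrev n (x : NT) : Symbol (Option A) NT := .nonterminal x

/-- the rules -/
def rules : Finset (ContextFreeRule (Option A) NT) :=
  (Finset.univ.image (fun x : A => ⟨NT.S, [n .D, t x, n .S, t x, n .D']⟩)) ∪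
  ({⟨NT.S, [n .D, .terminal none, n .D']⟩, ⟨NT.D, []⟩, ⟨NT.D, [n .D, n .D]⟩,
    ⟨NT.D', []⟩, ⟨NT.D', [n .D', n .D']⟩} ∪
  ((Finset.univ.image (fun i : Bool => ⟨NT.D, [t (o i), n (.P i), t (k (!i))]⟩)) ∪
  ((Finset.univ.image (fun i : Bool => ⟨NT.P i, [n .D, t (m i), n (.P i), t (m (!i)), n .D]⟩)) ∪
  ((Finset.univ.image (fun i : Bool => ⟨NT.P i, [n .D, t (k i), n .D, t (o (!i)), n .D]⟩)) ∪
  ((Finset.univ.image (fun i : Bool => ⟨NT.D', [t (k (!i)), n (.P' i), t (o i)]⟩)) ∪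
  ((Finset.univ.image (fun i : Bool =>
    ⟨NT.P' i, [n .D', t (m (!i)), n (.P' i), t (m i), n .D']⟩)) ∪
  (Finset.univ.image (fun i : Bool =>
    ⟨NT.P' i, [n .D', t (o (!i)), n .D', t (k i), n .D']⟩))))))))

/-- interpretation of the nonterminals -/
def I : NT → Language (Option A)
  | .S => WPl
  | .D => {w | ∃ u : List A, pr u = 1 ∧ w = u.map some}
  | .P i => {w | ∃ u : List A, (∃ l, pr u = pr (mid i l)) ∧ w = u.map some}
  | .D' => {w | ∃ u : List A, pr u = 1 ∧ w = u.reverse.map some}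
  | .P' i => {w | ∃ u : List A, (∃ l, pr u = pr (mid i l)) ∧ w = u.reverse.map some}

theorem pr_cons (x : A) (w : List A) : pr (x :: w) = pr [x] * pr w := pr_append [x] w

theorem mid_zero (i : Bool) : mid i 0 = [k i, o (!i)] := rfl

theorem mid_succ (i : Bool) (l : ℕ) : mid i (l + 1) = m i :: (mid i l ++ [m (!i)]) := by
  have h1 : List.replicate (l + 1) (m (!i)) = List.replicate l (m (!i)) ++ [m (!i)] :=
    List.replicate_succ'
  rw [mid, mid, h1, List.replicate_succ]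
  simp

theorem o_mid_k (i : Bool) (l : ℕ) : o i :: (mid i l ++ [k (!i)]) = tok i l ++ tok (!i) l := by
  simp [mid, tok]

theorem pr_wrap {i : Bool} {l : ℕ} {u : List A} (h : pr u = pr (mid i l)) :
    pr (o i :: (u ++ [k (!i)])) = 1 := by
  rw [pr_cons, pr_append, h, ← pr_append, ← pr_cons, o_mid_k, pr_append, pr_rel]

theorem pr_pm {i : Bool} {l : ℕ} {d u d' : List A} (hd : pr d = 1) (h : pr u = pr (mid i l))
    (hd' : pr d' = 1) : pr (d ++ m i :: (u ++ m (!i) :: d')) = pr (mid i (l + 1)) := by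
  rw [pr_append, pr_cons, pr_append, pr_cons (m (!i)), hd, hd', h, mid_succ, pr_cons (m i) (_ ++ _),
    pr_append, one_mul, mul_one]

theorem pr_pk {i : Bool} {d d' d'' : List A} (hd : pr d = 1) (hd' : pr d' = 1)
    (hd'' : pr d'' = 1) : pr (d ++ k i :: (d' ++ o (!i) :: d'')) = pr (mid i 0) := by
  rw [pr_append, pr_cons, pr_append, pr_cons (o (!i)), hd, hd', hd'', mid_zero, pr_cons (k i) [_],
    one_mul, one_mul, mul_one]

theorem sound : ∀ r ∈ rules, ∀ w, w ∈ Sem I r.output → w ∈ I r.input := by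
  intro r hr w hw
  simp only [rules, Finset.mem_union, Finset.mem_image, Finset.mem_univ, true_and,
    Finset.mem_insert, Finset.mem_singleton] at hr
  rcases hr with ⟨x, rfl⟩ | (rfl | rfl | rfl | rfl | rfl) | ⟨i, rfl⟩ | ⟨i, rfl⟩ | ⟨i, rfl⟩ |
    ⟨i, rfl⟩ | ⟨i, rfl⟩ | ⟨i, rfl⟩
  · simp only [mem_Sem_cons_nonterminal, mem_Sem_cons_terminal, mem_Sem_nil] at hw
    obtain ⟨_, ⟨d, hd, rfl⟩, _, ⟨_, ⟨_, ⟨u, v, huv, rfl⟩, _, ⟨_, ⟨_, ⟨d', hd', rfl⟩, _, rfl, rfl⟩,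
      rfl⟩, rfl⟩, rfl⟩, rfl⟩ := hw
    refine ⟨d ++ x :: u, d' ++ x :: v, ?_, by simp⟩
    rw [pr_append, pr_append, pr_cons x u, pr_cons x v, hd, hd', huv]
  · simp only [mem_Sem_cons_nonterminal, mem_Sem_cons_terminal, mem_Sem_nil] at hw
    obtain ⟨_, ⟨d, hd, rfl⟩, _, ⟨_, ⟨_, ⟨d', hd', rfl⟩, _, rfl, rfl⟩, rfl⟩, rfl⟩ := hw
    exact ⟨d, d', hd.trans hd'.symm, by simp⟩
  · simp only [mem_Sem_nil] at hw
    exact ⟨[], rfl, by simpa using hw⟩
  · simp only [mem_Sem_cons_nonterminal, mem_Sem_nil] at hw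
    obtain ⟨_, ⟨d, hd, rfl⟩, _, ⟨_, ⟨d', hd', rfl⟩, _, rfl, rfl⟩, rfl⟩ := hw
    exact ⟨d ++ d', by rw [pr_append, hd, hd', one_mul], by simp⟩
  · simp only [mem_Sem_nil] at hw
    exact ⟨[], rfl, by simpa using hw⟩
  · simp only [mem_Sem_cons_nonterminal, mem_Sem_nil] at hw
    obtain ⟨_, ⟨d, hd, rfl⟩, _, ⟨_, ⟨d', hd', rfl⟩, _, rfl, rfl⟩, rfl⟩ := hw
    exact ⟨d' ++ d, by rw [pr_append, hd, hd', one_mul], by simp⟩
  · simp only [mem_Sem_cons_nonterminal, mem_Sem_cons_terminal, mem_Sem_nil] at hw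
    obtain ⟨_, ⟨_, ⟨u, ⟨l, hu⟩, rfl⟩, _, ⟨_, rfl, rfl⟩, rfl⟩, rfl⟩ := hw
    exact ⟨o i :: (u ++ [k (!i)]), pr_wrap hu, by simp⟩
  · simp only [mem_Sem_cons_nonterminal, mem_Sem_cons_terminal, mem_Sem_nil] at hw
    obtain ⟨_, ⟨d, hd, rfl⟩, _, ⟨_, ⟨_, ⟨u, ⟨l, hu⟩, rfl⟩, _, ⟨_, ⟨_, ⟨d', hd', rfl⟩, _, rfl, rfl⟩,
      rfl⟩, rfl⟩, rfl⟩, rfl⟩ := hw
    exact ⟨_, ⟨l + 1, pr_pm hd hu hd'⟩, by simp⟩
  · simp only [mem_Sem_cons_nonterminal, mem_Sem_cons_terminal, mem_Sem_nil] at hw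
    obtain ⟨_, ⟨d, hd, rfl⟩, _, ⟨_, ⟨_, ⟨u, hu, rfl⟩, _, ⟨_, ⟨_, ⟨d', hd', rfl⟩, _, rfl, rfl⟩,
      rfl⟩, rfl⟩, rfl⟩, rfl⟩ := hw
    exact ⟨_, ⟨0, pr_pk hd hu hd'⟩, by simp⟩
  · simp only [mem_Sem_cons_nonterminal, mem_Sem_cons_terminal, mem_Sem_nil] at hw
    obtain ⟨_, ⟨_, ⟨u, ⟨l, hu⟩, rfl⟩, _, ⟨_, rfl, rfl⟩, rfl⟩, rfl⟩ := hw
    exact ⟨o i :: (u ++ [k (!i)]), pr_wrap hu, by simp⟩
  · simp only [mem_Sem_cons_nonterminal, mem_Sem_cons_terminal, mem_Sem_nil] at hw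
    obtain ⟨_, ⟨d, hd, rfl⟩, _, ⟨_, ⟨_, ⟨u, ⟨l, hu⟩, rfl⟩, _, ⟨_, ⟨_, ⟨d', hd', rfl⟩, _, rfl, rfl⟩,
      rfl⟩, rfl⟩, rfl⟩, rfl⟩ := hw
    exact ⟨_, ⟨l + 1, pr_pm hd' hu hd⟩, by simp⟩
  · simp only [mem_Sem_cons_nonterminal, mem_Sem_cons_terminal, mem_Sem_nil] at hw
    obtain ⟨_, ⟨d, hd, rfl⟩, _, ⟨_, ⟨_, ⟨u, hu, rfl⟩, _, ⟨_, ⟨_, ⟨d', hd', rfl⟩, _, rfl, rfl⟩,
      rfl⟩, rfl⟩, rfl⟩, rfl⟩ := hw
    exact ⟨_, ⟨0, pr_pk hd' hu hd⟩, by simp⟩

theorem r1 (x : A) : (⟨NT.S, [n .D, t x, n .S, t x, n .D']⟩ : ContextFreeRule (Option A) NT) ∈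
    rules :=
  Finset.mem_union_left _ (Finset.mem_image_of_mem _ (Finset.mem_univ x))

theorem r3 (i : Bool) : (⟨NT.D, [t (o i), n (.P i), t (k (!i))]⟩ :
    ContextFreeRule (Option A) NT) ∈ rules :=
  Finset.mem_union_right _ (Finset.mem_union_right _ (Finset.mem_union_left _
    (Finset.mem_image_of_mem (fun i : Bool => (⟨NT.D, [t (o i), n (.P i), t (k (!i))]⟩ :
      ContextFreeRule (Option A) NT)) (Finset.mem_univ i))))

theorem r4 (i : Bool) : (⟨NT.P i, [n .D, t (m i), n (.P i), t (m (!i)), n .D]⟩ :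
    ContextFreeRule (Option A) NT) ∈ rules :=
  Finset.mem_union_right _ (Finset.mem_union_right _ (Finset.mem_union_right _
    (Finset.mem_union_left _ (Finset.mem_image_of_mem (fun i : Bool =>
      (⟨NT.P i, [n .D, t (m i), n (.P i), t (m (!i)), n .D]⟩ :
      ContextFreeRule (Option A) NT)) (Finset.mem_univ i)))))

theorem r5 (i : Bool) : (⟨NT.P i, [n .D, t (k i), n .D, t (o (!i)), n .D]⟩ :
    ContextFreeRule (Option A) NT) ∈ rules :=
  Finset.mem_union_right _ (Finset.mem_union_right _ (Finset.mem_union_right _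
    (Finset.mem_union_right _ (Finset.mem_union_left _ (Finset.mem_image_of_mem (fun i : Bool =>
      (⟨NT.P i, [n .D, t (k i), n .D, t (o (!i)), n .D]⟩ :
      ContextFreeRule (Option A) NT)) (Finset.mem_univ i))))))

theorem r6 (i : Bool) : (⟨NT.D', [t (k (!i)), n (.P' i), t (o i)]⟩ :
    ContextFreeRule (Option A) NT) ∈ rules :=
  Finset.mem_union_right _ (Finset.mem_union_right _ (Finset.mem_union_right _
    (Finset.mem_union_right _ (Finset.mem_union_right _ (Finset.mem_union_left _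
    (Finset.mem_image_of_mem (fun i : Bool =>
      (⟨NT.D', [t (k (!i)), n (.P' i), t (o i)]⟩ :
      ContextFreeRule (Option A) NT)) (Finset.mem_univ i)))))))

theorem r7 (i : Bool) : (⟨NT.P' i, [n .D', t (m (!i)), n (.P' i), t (m i), n .D']⟩ :
    ContextFreeRule (Option A) NT) ∈ rules :=
  Finset.mem_union_right _ (Finset.mem_union_right _ (Finset.mem_union_right _
    (Finset.mem_union_right _ (Finset.mem_union_right _ (Finset.mem_union_right _
    (Finset.mem_union_left _ (Finset.mem_image_of_mem (fun i : Bool =>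
      (⟨NT.P' i, [n .D', t (m (!i)), n (.P' i), t (m i), n .D']⟩ :
      ContextFreeRule (Option A) NT)) (Finset.mem_univ i))))))))

theorem r8 (i : Bool) : (⟨NT.P' i, [n .D', t (o (!i)), n .D', t (k i), n .D']⟩ :
    ContextFreeRule (Option A) NT) ∈ rules :=
  Finset.mem_union_right _ (Finset.mem_union_right _ (Finset.mem_union_right _
    (Finset.mem_union_right _ (Finset.mem_union_right _ (Finset.mem_union_right _
    (Finset.mem_union_right _ (Finset.mem_image_of_mem (fun i : Bool =>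
      (⟨NT.P' i, [n .D', t (o (!i)), n .D', t (k i), n .D']⟩ :
      ContextFreeRule (Option A) NT)) (Finset.mem_univ i))))))))

/-- closure properties used for completeness -/
structure Clo (D : Set (List A)) (P : Bool → Set (List A)) : Prop where
  nil : [] ∈ D
  app : ∀ u v, u ∈ D → v ∈ D → u ++ v ∈ D
  wrap : ∀ i u, u ∈ P i → o i :: (u ++ [k (!i)]) ∈ D
  pm : ∀ i d u d', d ∈ D → u ∈ P i → d' ∈ D → d ++ m i :: (u ++ m (!i) :: d') ∈ P i
  pk : ∀ i d d' d'', d ∈ D → d' ∈ D → d'' ∈ D → d ++ k i :: (d' ++ o (!i) :: d'') ∈ P i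

/-- `w` consists of the letters of `x` separated by words in `D` -/
def Ch (D : Set (List A)) : List A → List A → Prop
  | [], w => w ∈ D
  | x :: xs, w => ∃ d v, d ∈ D ∧ Ch D xs v ∧ w = d ++ x :: v

theorem Ch_split {D : Set (List A)} {p q : List A} {y : A} {w : List A}
    (h : Ch D (p ++ y :: q) w) : ∃ u v, w = u ++ y :: v ∧ Ch D p u ∧ Ch D q v := by
  induction p generalizing w with
  | nil =>
    obtain ⟨d, v, hd, hv, rfl⟩ := h
    exact ⟨d, v, rfl, hd, hv⟩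
  | cons x p ih =>
    obtain ⟨d, v, hd, hv, rfl⟩ := h
    obtain ⟨u', v', rfl, h1, h2⟩ := ih hv
    exact ⟨d ++ x :: u', v', by simp, ⟨d, u', hd, h1, rfl⟩, h2⟩

theorem Ch_join {D : Set (List A)} {p q : List A} {y : A} {u v : List A}
    (h : Ch D p u) (h' : Ch D q v) : Ch D (p ++ y :: q) (u ++ y :: v) := by
  induction p generalizing u with
  | nil => exact ⟨u, v, h, h', rfl⟩
  | cons x p ih =>
    obtain ⟨d, u', hd, hu', rfl⟩ := h
    exact ⟨d, u' ++ y :: v, hd, ih hu', by simp⟩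

theorem Ch_app {D : Set (List A)} {P : Bool → Set (List A)} (hD : Clo D P) {p u d : List A}
    (h : Ch D p u) (hd : d ∈ D) : Ch D p (u ++ d) := by
  induction p generalizing u with
  | nil => exact hD.app _ _ h hd
  | cons x p ih =>
    obtain ⟨d', u', hd', hu', rfl⟩ := h
    exact ⟨d', u' ++ d, hd', ih hu', by simp⟩

theorem Ch_mid {D : Set (List A)} {P : Bool → Set (List A)} (hD : Clo D P) {i : Bool} {l : ℕ}
    {w : List A} (h : Ch D (mid i l) w) : w ∈ P i := by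
  induction l generalizing w with
  | zero =>
    obtain ⟨d, v, hd, ⟨d', v', hd', hv', rfl⟩, rfl⟩ := h
    exact hD.pk i d d' v' hd hd' hv'
  | succ l ih =>
    rw [mid_succ] at h
    obtain ⟨d, v, hd, hv, rfl⟩ := h
    obtain ⟨u, v, rfl, h1, h2⟩ := Ch_split hv
    exact hD.pm i d u v hd (ih h1) h2

theorem Ch_nf {D : Set (List A)} {P : Bool → Set (List A)} (hD : Clo D P) (w : List A) :
    Ch D (nf w) w := by
  induction w using List.reverseRecOn with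
  | nil => exact hD.nil
  | append_singleton w x ih =>
    have h1 : nf (w ++ [x]) = step (nf w) x := by simp [nf]
    rw [h1]
    rcases step_cases (nf w) x with ⟨h2, -⟩ | ⟨i, p, rfl, ⟨l, h3⟩, h4⟩
    · rw [h2]
      exact Ch_join ih hD.nil
    · rw [h4]
      have h5 : nf w = p ++ o (!i) :: mid (!i) l := by
        rw [h3]
        simp [mid, tok, om]
      rw [h5] at ih
      obtain ⟨u, v, rfl, h6, h7⟩ := Ch_split ih
      have h8 := hD.wrap (!i) v (Ch_mid hD h7)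
      rw [Bool.not_not] at h8
      have h9 := Ch_app hD h6 h8
      simpa using h9

/-- words derived from a nonterminal -/
abbrev LL (x : NT) : Language (Option A) := Lg NT.S rules x

theorem LL_mem {r : ContextFreeRule (Option A) NT} (hr : r ∈ rules) {w : List (Option A)}
    (h : w ∈ Sem LL r.output) : w ∈ LL r.input := mem_Lg NT.S rules hr h

theorem Clo_D : Clo {u | u.map some ∈ LL .D} (fun i => {u | u.map some ∈ LL (.P i)}) where
  nil := by
    refine LL_mem (r := ⟨NT.D, []⟩) (by simp [rules]) ?_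
    simp [mem_Sem_nil]
  app := by
    intro u v hu hv
    refine LL_mem (r := ⟨NT.D, [n .D, n .D]⟩) (by simp [rules]) ?_
    simp only [mem_Sem_cons_nonterminal, mem_Sem_nil]
    exact ⟨_, hu, _, ⟨_, hv, _, rfl, rfl⟩, by simp⟩
  wrap := by
    intro i u hu
    refine LL_mem (r := ⟨NT.D, [t (o i), n (.P i), t (k (!i))]⟩) (r3 i) ?_
    simp only [mem_Sem_cons_nonterminal, mem_Sem_cons_terminal, mem_Sem_nil]
    exact ⟨_, ⟨_, hu, _, ⟨_, rfl, rfl⟩, rfl⟩, by simp⟩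
  pm := by
    intro i d u d' hd hu hd'
    refine LL_mem (r := ⟨NT.P i, [n .D, t (m i), n (.P i), t (m (!i)), n .D]⟩)
      (r4 i) ?_
    simp only [mem_Sem_cons_nonterminal, mem_Sem_cons_terminal, mem_Sem_nil]
    exact ⟨_, hd, _, ⟨_, ⟨_, hu, _, ⟨_, ⟨_, hd', _, rfl, rfl⟩, rfl⟩, rfl⟩, rfl⟩, by simp⟩
  pk := by
    intro i d d' d'' hd hd' hd''
    refine LL_mem (r := ⟨NT.P i, [n .D, t (k i), n .D, t (o (!i)), n .D]⟩)
      (r5 i) ?_
    simp only [mem_Sem_cons_nonterminal, mem_Sem_cons_terminal, mem_Sem_nil]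
    exact ⟨_, hd, _, ⟨_, ⟨_, hd', _, ⟨_, ⟨_, hd'', _, rfl, rfl⟩, rfl⟩, rfl⟩, rfl⟩, by simp⟩

theorem Clo_D' : Clo {u | u.reverse.map some ∈ LL .D'}
    (fun i => {u | u.reverse.map some ∈ LL (.P' i)}) where
  nil := by
    refine LL_mem (r := ⟨NT.D', []⟩) (by simp [rules]) ?_
    simp [mem_Sem_nil]
  app := by
    intro u v hu hv
    refine LL_mem (r := ⟨NT.D', [n .D', n .D']⟩) (by simp [rules]) ?_
    simp only [mem_Sem_cons_nonterminal, mem_Sem_nil]
    exact ⟨_, hv, _, ⟨_, hu, _, rfl, rfl⟩, by simp⟩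
  wrap := by
    intro i u hu
    refine LL_mem (r := ⟨NT.D', [t (k (!i)), n (.P' i), t (o i)]⟩) (r6 i) ?_
    simp only [mem_Sem_cons_nonterminal, mem_Sem_cons_terminal, mem_Sem_nil]
    exact ⟨_, ⟨_, hu, _, ⟨_, rfl, rfl⟩, rfl⟩, by simp⟩
  pm := by
    intro i d u d' hd hu hd'
    refine LL_mem (r := ⟨NT.P' i, [n .D', t (m (!i)), n (.P' i), t (m i), n .D']⟩)
      (r7 i) ?_
    simp only [mem_Sem_cons_nonterminal, mem_Sem_cons_terminal, mem_Sem_nil]
    exact ⟨_, hd', _, ⟨_, ⟨_, hu, _, ⟨_, ⟨_, hd, _, rfl, rfl⟩, rfl⟩, rfl⟩, rfl⟩, by simp⟩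
  pk := by
    intro i d d' d'' hd hd' hd''
    refine LL_mem (r := ⟨NT.P' i, [n .D', t (o (!i)), n .D', t (k i), n .D']⟩)
      (r8 i) ?_
    simp only [mem_Sem_cons_nonterminal, mem_Sem_cons_terminal, mem_Sem_nil]
    exact ⟨_, hd'', _, ⟨_, ⟨_, hd', _, ⟨_, ⟨_, hd, _, rfl, rfl⟩, rfl⟩, rfl⟩, rfl⟩, by simp⟩

theorem complete_aux (x : List A) : ∀ u v : List A, Ch {u | u.map some ∈ LL .D} x u →
    Ch {u | u.reverse.map some ∈ LL .D'} x v →
    u.map some ++ [none] ++ v.reverse.map some ∈ LL .S := by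
  induction x with
  | nil =>
    intro u v hu hv
    refine LL_mem (r := ⟨NT.S, [n .D, .terminal none, n .D']⟩) (by simp [rules]) ?_
    simp only [mem_Sem_cons_nonterminal, mem_Sem_cons_terminal, mem_Sem_nil]
    exact ⟨_, hu, _, ⟨_, ⟨_, hv, _, rfl, rfl⟩, rfl⟩, by simp⟩
  | cons x xs ih =>
    rintro u v ⟨d, u, hd, hu, rfl⟩ ⟨d', v, hd', hv, rfl⟩
    refine LL_mem (r := ⟨NT.S, [n .D, t x, n .S, t x, n .D']⟩) (r1 x) ?_
    simp only [mem_Sem_cons_nonterminal, mem_Sem_cons_terminal, mem_Sem_nil]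
    exact ⟨_, hd, _, ⟨_, ⟨_, ih u v hu hv, _, ⟨_, ⟨_, hd', _, rfl, rfl⟩, rfl⟩, rfl⟩, rfl⟩, by simp⟩

theorem WPl_isContextFree : WPl.IsContextFree := by
  refine ⟨mk NT.S rules, ?_⟩
  apply Set.Subset.antisymm
  · intro w hw
    exact mem_of_generates NT.S rules I sound hw
  · rintro w ⟨u, v, huv, rfl⟩
    have h1 := Ch_nf Clo_D u
    have h2 := Ch_nf Clo_D' v
    rw [pr_eq_iff.1 huv] at h1
    exact complete_aux (nf v) u v h1 h2

end Pool.Agent.K7.H93.CFU
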