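import Mathlib
import Pool.Agent.K7.H93.CFU.Base

set_option autoImplicit false

/-!
# The group of units of the monoid `M`
-/

namespace Pool.Agent.K7.H93.CFU

open A

/-- products of prefixes of relators -/
inductive PP : List A → Prop
  | nil : PP []
  | om (w : List A) (i : Bool) (n : ℕ) : PP w → PP (w ++ om i n)
  | tok (w : List A) (i : Bool) (n : ℕ) : PP w → PP (w ++ tok i n)

theorem PP.of_append_singleton {w : List A} {x : A} (h : PP (w ++ [x])) : PP w := by
  generalize hv : w ++ [x] = v at h
  cases h with
  | nil => simp at hv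
  | om u i n hu =>
    cases n with
    | zero =>
      rw [om_zero] at hv
      rw [(List.append_inj' hv rfl).1]
      exact hu
    | succ n =>
      rw [om_succ, ← List.append_assoc] at hv
      rw [(List.append_inj' hv rfl).1]
      exact PP.om u i n hu
  | tok u i n hu =>
    rw [tok_eq, ← List.append_assoc] at hv
    rw [(List.append_inj' hv rfl).1]
    exact PP.om u i n hu

theorem PP_of_run {s y : List A} (h : run s y = []) : PP s := by
  induction y generalizing s with
  | nil =>
    rw [run_nil] at h
    rw [h]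
    exact PP.nil
  | cons x y ih =>
    rw [run_cons] at h
    have h1 := ih h
    rcases step_cases s x with ⟨h2, -⟩ | ⟨i, p, rfl, ⟨n, rfl⟩, h4⟩
    · rw [h2] at h1
      exact h1.of_append_singleton
    · rw [h4] at h1
      rw [← List.append_assoc]
      exact PP.om _ _ _ (PP.tok _ _ _ h1)

/-- products of suffixes of relators -/
inductive SS : List A → Prop
  | nil : SS []
  | mk (i : Bool) (n : ℕ) (w : List A) : SS w → SS (List.replicate n (m i) ++ (k i :: w))
  | tok (i : Bool) (n : ℕ) (w : List A) : SS w → SS (tok i n ++ w)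

theorem SS.of_cons {w : List A} {x : A} (h : SS (x :: w)) : SS w := by
  generalize hv : x :: w = v at h
  cases h with
  | nil => simp at hv
  | mk i n u hu =>
    cases n with
    | zero =>
      simp only [List.replicate_zero, List.nil_append, List.cons.injEq] at hv
      rw [hv.2]
      exact hu
    | succ n =>
      simp only [List.replicate_succ, List.cons_append, List.cons.injEq] at hv
      rw [hv.2]
      exact SS.mk i n u hu
  | tok i n u hu =>
    simp only [CFU.tok, List.cons_append, List.append_assoc, List.cons.injEq] at hv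
    rw [hv.2]
    exact SS.mk i n u hu

theorem SS.right {u w : List A} (h : SS (u ++ w)) : SS w := by
  induction u with
  | nil => exact h
  | cons x u ih => exact ih h.of_cons

theorem SS_of_run {w t s : List A} (h : Irr (t ++ w)) (h' : run (s ++ t) w = []) :
    SS (t ++ w) := by
  induction w generalizing t s with
  | nil =>
    rw [run_nil] at h'
    have : t = [] := (List.append_eq_nil_iff.1 h').2
    subst this
    exact SS.nil
  | cons x w ih =>
    rw [run_cons] at h'
    rcases step_cases (s ++ t) x with ⟨h2, -⟩ | ⟨i, p, rfl, ⟨n, h3⟩, h4⟩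
    · rw [h2] at h'
      have h5 := ih (t := t ++ [x]) (s := s) (by simpa using h) (by simpa using h')
      simpa using h5
    · rw [h4] at h'
      have h5 : SS w := ih (t := []) (s := p) (by simpa using h.right.tail) (by simpa using h')
      have h6 : SS (tok (!i) n ++ (tok i n ++ w)) := SS.tok _ _ _ (SS.tok _ _ _ h5)
      have h7 : tok (!i) n ++ (tok i n ++ w) = (tok (!i) n ++ om i n) ++ (k i :: w) := by
        simp [tok_eq]
      rw [h7] at h6
      rcases List.append_eq_append_iff.1 h3 with ⟨z, h8, h9⟩ | ⟨z, h8, h9⟩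
      · exfalso
        apply h z w (!i) n
        rw [Bool.not_not, h7, h9]
        simp
      · rw [h9, List.append_assoc] at h6
        exact h6.right

/-- products of tokens of index less than `N` -/
inductive KK (N : ℕ) : List A → Prop
  | nil : KK N []
  | tok (w : List A) (i : Bool) (n : ℕ) : n < N → KK N w → KK N (w ++ tok i n)

theorem KK.mono {N N' : ℕ} (h : N ≤ N') {w : List A} (hw : KK N w) : KK N' w := by
  induction hw with
  | nil => exact KK.nil
  | tok w i n hn _ ih => exact KK.tok w i n (by omega) ih

theorem KK.append {N : ℕ} {u v : List A} (hu : KK N u) (hv : KK N v) : KK N (u ++ v) := by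
  induction hv with
  | nil => simpa using hu
  | tok w i n hn _ ih =>
    rw [← List.append_assoc]
    exact KK.tok _ i n hn ih

theorem KK.single {N n : ℕ} (i : Bool) (h : n < N) : KK N (CFU.tok i n) := by
  have := KK.tok (N := N) [] i n h KK.nil
  simpa using this

/-- the left version of `PP` -/
theorem PP.left {w : List A} (h : PP w) : w = [] ∨ (∃ i n v, w = CFU.om i n ++ v ∧ PP v) ∨
    ∃ i n v, w = CFU.tok i n ++ v ∧ PP v := by
  induction h with
  | nil => left; rfl
  | om w i n hw ih =>
    right
    rcases ih with rfl | ⟨j, l, v, rfl, hv⟩ | ⟨j, l, v, rfl, hv⟩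
    · left
      exact ⟨i, n, [], by simp, PP.nil⟩
    · left
      exact ⟨j, l, v ++ CFU.om i n, by simp, PP.om _ _ _ hv⟩
    · right
      exact ⟨j, l, v ++ CFU.om i n, by simp, PP.om _ _ _ hv⟩
  | tok w i n hw ih =>
    right
    rcases ih with rfl | ⟨j, l, v, rfl, hv⟩ | ⟨j, l, v, rfl, hv⟩
    · right
      exact ⟨i, n, [], by simp, PP.nil⟩
    · left
      exact ⟨j, l, v ++ CFU.tok i n, by simp, PP.tok _ _ _ hv⟩
    · right
      exact ⟨j, l, v ++ CFU.tok i n, by simp, PP.tok _ _ _ hv⟩

theorem PP.head {w : List A} (h : PP w) : w = [] ∨ ∃ i v, w = o i :: v := by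
  rcases h.left with rfl | ⟨i, n, v, rfl, -⟩ | ⟨i, n, v, rfl, -⟩
  · left; rfl
  · right; exact ⟨i, List.replicate n (m i) ++ v, rfl⟩
  · right; exact ⟨i, _, rfl⟩

/-- left cancellation -/
theorem rep_cancel {i j : Bool} {n l : ℕ} {v w : List A}
    (h : List.replicate n (m i) ++ v = List.replicate l (m j) ++ (k j :: w))
    (hv : ∀ i' v', v ≠ m i' :: v') : v = k j :: w := by
  induction n generalizing l with
  | zero =>
    cases l with
    | zero => simpa using h
    | succ l =>
      rw [List.replicate_succ] at h
      simp only [List.replicate_zero, List.nil_append, List.cons_append] at h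
      exact absurd h (hv _ _)
  | succ n ih =>
    cases l with
    | zero =>
      rw [List.replicate_succ] at h
      simp at h
    | succ l =>
      rw [List.replicate_succ, List.replicate_succ] at h
      simp only [List.cons_append, List.cons.injEq] at h
      exact ih h.2

theorem PP.of_tok {i : Bool} {n : ℕ} {w : List A} (h : PP (CFU.tok i n ++ w)) : PP w := by
  rcases h.left with h1 | ⟨j, l, v, h1, hv⟩ | ⟨j, l, v, h1, hv⟩
  · simp [CFU.tok] at h1
  · exfalso
    simp only [CFU.tok, CFU.om, List.cons_append, List.append_assoc, List.cons.injEq,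
      List.nil_append] at h1
    have h2 := rep_cancel h1.2.symm (by
      intro i' v' hv'
      rcases hv.head with rfl | ⟨i, v, rfl⟩
      · simp at hv'
      · simp at hv')
    rcases hv.head with rfl | ⟨i, v, rfl⟩
    · simp at h2
    · simp at h2
  · simp only [CFU.tok, List.cons_append, List.append_assoc, List.cons.injEq,
      List.nil_append] at h1
    have h2 := rep_cancel h1.2.symm (by simp)
    simp only [List.cons.injEq] at h2
    rw [← h2.2]
    exact hv

/-- words in both are products of tokens -/
theorem KK_of {w : List A} (h : SS w) (h' : PP w) : ∃ N, KK N w := by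
  induction h with
  | nil => exact ⟨0, KK.nil⟩
  | mk i n w hw ih =>
    exfalso
    rcases h'.head with h1 | ⟨j, v, h1⟩
    · simp at h1
    · cases n with
      | zero => simp at h1
      | succ n => simp [List.replicate_succ] at h1
  | tok i n w hw ih =>
    obtain ⟨N, hN⟩ := ih h'.of_tok
    refine ⟨max N (n + 1), ?_⟩
    exact (KK.single i (by omega)).append (hN.mono (by omega))

/-- units are products of tokens -/
theorem unit_KK {u v : List A} (h : pr u * pr v = 1) (h' : pr v * pr u = 1) :
    ∃ N, KK N (nf u) := by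
  rw [← pr_nf u, ← pr_append, ← pr_nil, pr_eq_iff] at h
  rw [← pr_nf u, ← pr_append, ← pr_nil, pr_eq_iff] at h'
  have h1 : run (nf u) v = [] := by
    have h2 : nf (nf u ++ v) = run (nf (nf u)) v := by simp [nf]
    rw [h2, nf_of_Irr (Irr_nf u)] at h
    exact h
  have h2 : run (run [] v) (nf u) = [] := by
    have h3 : nf (v ++ nf u) = run (run [] v) (nf u) := by simp [nf]
    rw [h3] at h'
    exact h'
  have h5 : Irr ([] ++ nf u) := Irr_nf u
  have h6 : run (run [] v ++ []) (nf u) = [] := by rw [List.append_nil]; exact h2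
  exact KK_of (SS_of_run (t := []) (s := run [] v) h5 h6) (PP_of_run h1)

theorem KK.of_tok_right {N : ℕ} {w : List A} {i : Bool} {n : ℕ} (h : KK N (w ++ CFU.tok i n)) :
    KK N w ∧ n < N := by
  generalize hv : w ++ CFU.tok i n = v at h
  cases h with
  | nil => simp [CFU.tok] at hv
  | tok u j l hl hu =>
    obtain ⟨h1, -, h3⟩ := tok_cancel hv
    rw [h1, h3]
    exact ⟨hu, hl⟩

theorem KK_run {N : ℕ} {u v : List A} (hu : KK N u) (hv : KK N v) : KK N (run u v) := by
  induction hv with
  | nil => exact hu
  | tok w i n hn _ ih =>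
    rw [run_append]
    rcases run_tok (run u w) i n with ⟨p, h1, h2⟩ | ⟨h1, h2⟩
    · rw [h2]
      rw [h1] at ih
      exact ih.of_tok_right.1
    · rw [h2]
      exact KK.tok _ i n hn ih

/-- the unit given by a token -/
def tu (i : Bool) (n : ℕ) : Mˣ where
  val := pr (tok i n)
  inv := pr (tok (!i) n)
  val_inv := pr_rel i n
  inv_val := by
    have := pr_rel (!i) n
    rwa [Bool.not_not] at this

theorem tu_inv (i : Bool) (n : ℕ) : (tu i n)⁻¹ = tu (!i) n := by
  ext
  rfl

/-- the subgroup of units which are products of tokens of index less than `N` -/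
def H (N : ℕ) : Subgroup Mˣ where
  carrier := {x | ∃ w, KK N w ∧ (x : M) = pr w}
  one_mem' := ⟨[], KK.nil, rfl⟩
  mul_mem' := by
    rintro x y ⟨u, hu, hx⟩ ⟨v, hv, hy⟩
    exact ⟨u ++ v, hu.append hv, by rw [Units.val_mul, hx, hy, pr_append]⟩
  inv_mem' := by
    rintro x ⟨u, hu, hx⟩
    induction hu generalizing x with
    | nil =>
      have : x = 1 := by ext; exact hx
      subst this
      exact ⟨[], KK.nil, by simp⟩
    | tok w i n hn hw ih =>
      have h1 : ((x * (tu i n)⁻¹ : Mˣ) : M) = pr w := by
        rw [Units.val_mul, hx, pr_append, mul_assoc, tu_inv]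
        change pr w * (pr (tok i n) * pr (tok (!i) n)) = _
        rw [pr_rel, mul_one]
      obtain ⟨v, hv, h2⟩ := ih h1
      refine ⟨CFU.tok (!i) n ++ v, (KK.single (!i) hn).append hv, ?_⟩
      have h3 : x⁻¹ = (tu i n)⁻¹ * (x * (tu i n)⁻¹)⁻¹ := by group
      rw [h3, Units.val_mul, h2, pr_append, tu_inv]
      rfl

theorem H_mono {N N' : ℕ} (h : N ≤ N') : H N ≤ H N' := by
  rintro x ⟨w, hw, hx⟩
  exact ⟨w, hw.mono h, hx⟩

theorem exists_mem_H (x : Mˣ) : ∃ N, x ∈ H N := by
  obtain ⟨u, hu⟩ := pr_surjective (x : M)
  obtain ⟨v, hv⟩ := pr_surjective ((x⁻¹ : Mˣ) : M)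
  obtain ⟨N, hN⟩ := unit_KK (u := u) (v := v) (by rw [hu, hv]; simp) (by rw [hu, hv]; simp)
  exact ⟨N, nf u, hN, by rw [pr_nf, hu]⟩

theorem Irr_tok (i : Bool) (n : ℕ) : Irr (tok i n) := by
  intro p q j l h
  have h1 := congrArg (List.count (k j)) h
  have h2 := congrArg (List.count (k (!j))) h
  simp only [tok, List.count_cons, List.count_append, List.count_replicate] at h1 h2
  cases i <;> cases j <;> simp at h1 h2 <;> omega

theorem tu_notMem (N : ℕ) : tu true N ∉ H N := by
  rintro ⟨w, hw, hx⟩
  have h1 : pr (tok true N) = pr w := hx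
  rw [pr_eq_iff, nf_of_Irr (Irr_tok true N)] at h1
  have h2 : KK N (nf w) := KK_run KK.nil hw
  rw [← h1] at h2
  have h3 : KK N ([] ++ tok true N) := by simpa using h2
  exact absurd h3.of_tok_right.2 (lt_irrefl _)

/-- the group of units is not finitely generated -/
theorem not_fg : ¬ Group.FG Mˣ := by
  intro h
  obtain ⟨S, hS⟩ := h.out
  have h1 : ∀ T : Finset Mˣ, ∃ N, ∀ x ∈ T, x ∈ H N := by
    classical
    intro T
    induction T using Finset.induction_on with
    | empty => exact ⟨0, by simp⟩
    | insert a T _ ih =>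
      obtain ⟨N, hN⟩ := ih
      obtain ⟨N', hN'⟩ := exists_mem_H a
      refine ⟨max N N', ?_⟩
      intro x hx
      rcases Finset.mem_insert.1 hx with rfl | hx
      · exact H_mono (le_max_right _ _) hN'
      · exact H_mono (le_max_left _ _) (hN x hx)
  obtain ⟨N, hN⟩ := h1 S
  have h2 : Subgroup.closure (S : Set Mˣ) ≤ H N := (Subgroup.closure_le _).2 hN
  rw [hS] at h2
  exact tu_notMem N (h2 (Subgroup.mem_top _))

end Pool.Agent.K7.H93.CFU
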